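import Mathlib
import Pool.Agent.H422.DC.Main

/-!
# Compositions of polynomials in `z ^ e`: one place
-/

set_option autoImplicit false

open Polynomial

namespace Pool.Agent.H422.CO

open Pool.Agent.H422.HE Pool.Agent.H422.UC Pool.Agent.H422.MF Pool.Agent.H422.MR
  Pool.Agent.H422.DC

section seq

variable {X : Type*}

/-- periodic sequences -/
def Cy (x : ℕ → X) : Prop := ∃ p, 0 < p ∧ ∀ j, x (j + p) = x j

lemma Cy.mul {x : ℕ → X} {p : ℕ} (h : ∀ j, x (j + p) = x j) (k j : ℕ) : x (j + p * k) = x j := by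
  induction k with
  | zero => simp
  | succ k ih => rw [Nat.mul_succ, ← Nat.add_assoc, h, ih]

lemma Cy.comp {Y : Type*} {x : ℕ → X} (h : Cy x) (φ : X → Y) : Cy (fun j => φ (x j)) := by
  obtain ⟨p, hp, h⟩ := h
  exact ⟨p, hp, fun j => by simp only [h]⟩

lemma Cy.comp₂ {Y Z : Type*} {x : ℕ → X} {y : ℕ → Y} (hx : Cy x) (hy : Cy y) (φ : X → Y → Z) :
    Cy (fun j => φ (x j) (y j)) := by
  obtain ⟨p, hp, h⟩ := hx
  obtain ⟨q, hq, h'⟩ := hy
  refine ⟨p * q, Nat.mul_pos hp hq, fun j => ?_⟩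
  simp only
  rw [Cy.mul h q j, Nat.mul_comm, Cy.mul h' p j]

lemma Cy.shift {x : ℕ → X} (h : Cy x) (k : ℕ) : Cy (fun j => x (j + k)) := by
  obtain ⟨p, hp, h⟩ := h
  refine ⟨p, hp, fun j => ?_⟩
  simp only
  rw [Nat.add_right_comm, h]

lemma Cy.later {x : ℕ → X} (h : Cy x) (i j : ℕ) : ∃ k, i ≤ k ∧ x k = x j := by
  obtain ⟨p, hp, h⟩ := h
  exact ⟨j + p * i, by nlinarith, Cy.mul h i j⟩

/-- a periodic sequence does not increase forever -/
lemma Cy.not_incr {α : Type*} [Preorder α] {μ : ℕ → α} (h : Cy μ) (h' : ∀ j, μ j < μ (j + 1)) :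
    False := by
  obtain ⟨p, hp, h⟩ := h
  have := strictMono_nat_of_lt_succ h' (show 0 < 0 + p by omega)
  rw [h] at this
  exact lt_irrefl _ this

lemma Cy.const {α : Type*} [PartialOrder α] {μ : ℕ → α} (h : Cy μ) (h' : ∀ j, μ (j + 1) ≤ μ j)
    (j : ℕ) : μ (j + 1) = μ j := by
  obtain ⟨p, hp, h⟩ := h
  have hanti := antitone_nat_of_succ_le h'
  refine le_antisymm (h' j) ?_
  rw [← h j]
  exact hanti (by omega)

end seq

section

variable {K : Type*} [Field K]

/-- orbits of a sequence of polynomials -/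
def Orb (f : ℕ → K[X]) (x : ℕ → K) : Prop := ∀ j, x (j + 1) = (f j).eval (x j)

lemma Orb.shift {f : ℕ → K[X]} {x : ℕ → K} (h : Orb f x) (k : ℕ) :
    Orb (fun j => f (j + k)) (fun j => x (j + k)) := by
  intro j
  simp only
  rw [Nat.add_right_comm, h]

lemma Orb.eq {f : ℕ → K[X]} {x y : ℕ → K} (hx : Orb f x) (hy : Orb f y) {j : ℕ}
    (h : x j = y j) (k : ℕ) : x (j + k) = y (j + k) := by
  induction k with
  | zero => exact h
  | succ k ih => rw [← Nat.add_assoc, hx, hy, ih]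

/-- distinct cyclic orbits never meet -/
lemma Orb.ne {f : ℕ → K[X]} {x y : ℕ → K} (hx : Orb f x) (hy : Orb f y) (cx : Cy x) (cy : Cy y)
    (h : x 0 ≠ y 0) (j : ℕ) : x j ≠ y j := by
  intro h'
  apply h
  obtain ⟨p, hp, h1⟩ := cx
  obtain ⟨q, hq, h2⟩ := cy
  have h3 := hx.eq hy h' (p * q * j - j + p * q * 0)
  have h4 : j ≤ p * q * j := Nat.le_mul_of_pos_left j (Nat.mul_pos hp hq)
  rw [Nat.mul_zero, Nat.add_zero, ← Nat.add_sub_assoc h4, Nat.add_sub_cancel_left] at h3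
  have e1 := Cy.mul h1 (q * j) 0
  have e2 := Cy.mul h2 (p * j) 0
  rw [Nat.zero_add, ← Nat.mul_assoc] at e1 e2
  rw [Nat.mul_comm q p] at e2
  rw [← e1, h3, e2]

variable {Γ : Type*} [LinearOrderedCommGroupWithZero Γ] (v : Valuation K Γ)

/-- integral sequences of polynomials -/
structure In (f : ℕ → K[X]) : Prop where
  lead : ∀ i, v (f i).leadingCoeff = 1
  int : ∀ i k, v ((f i).coeff k) ≤ 1

/-- sequences of polynomials with dominating constant terms -/
structure Dm (M : ℕ) (f : ℕ → K[X]) : Prop where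
  lead : ∀ i, v (f i).leadingCoeff = 1
  tame : ∀ i, v ((f i).natDegree : K) = 1
  one : ∀ i, 1 < v ((f i).coeff 0)
  dom : ∀ i k, 0 < k → k < (f i).natDegree →
    v ((f i).coeff k) ^ (f i).natDegree < v ((f i).coeff 0) ^ ((f i).natDegree - k)
  next : ∀ i, v ((f (i + 1)).coeff 0) < v ((f i).coeff 0) ^ (f (i + 1)).natDegree
  pow : ∀ i, ∃ a, v ((f (i + 1)).coeff 0) ^ (f i).natDegree =
    v ((f i).coeff 0) ^ (f (i + 1)).natDegree * v a ^ (M * (f i).natDegree * (f (i + 1)).natDegree)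

variable {v}

lemma In.shift {f : ℕ → K[X]} (h : In v f) (k : ℕ) : In v (fun j => f (j + k)) :=
  ⟨fun _ => h.lead _, fun _ j => h.int _ j⟩

lemma Dm.shift {f : ℕ → K[X]} {M : ℕ} (h : Dm v M f) (k : ℕ) : Dm v M (fun j => f (j + k)) := by
  constructor
  · intro i; exact h.lead _
  · intro i; exact h.tame _
  · intro i; exact h.one _
  · intro i; exact h.dom _
  · intro i; rw [Nat.add_right_comm]; exact h.next _
  · intro i; rw [Nat.add_right_comm]; exact h.pow _

/-! ### the integral case -/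

lemma In.pg {f : ℕ → K[X]} (h : In v f) (i : ℕ) : PG v (f i) := by
  intro k
  rw [h.lead, mul_one, one_pow]
  exact pow_le_one' (h.int i k) _

lemma In.le {f : ℕ → K[X]} (h : In v f) (hD : ∀ i, 2 ≤ (f i).natDegree) {x : ℕ → K}
    (ox : Orb f x) (cx : Cy x) (j : ℕ) : v (x j) ≤ 1 := by
  by_contra hcon
  rw [not_le] at hcon
  have key : ∀ i, 1 < v (x i) → v (x i) < v (x (i + 1)) := by
    intro i hi
    have hD' := hD i
    rw [ox, (h.pg i).big (hD i) (by rw [h.lead, one_mul]; exact one_lt_pow₀ hi (by omega)), h.lead,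
      one_mul]
    exact lt_self_pow₀ hi (by omega)
  have h1 : ∀ k, 1 < v (x (j + k)) := by
    intro k
    induction k with
    | zero => exact hcon
    | succ k ih => exact lt_trans ih (key _ ih)
  refine ((cx.shift j).comp v).not_incr fun k => ?_
  have := key _ (h1 k)
  rw [Nat.add_right_comm, Nat.add_comm k j]
  exact this

theorem In.zeta {f : ℕ → K[X]} (h : In v f) (hD : ∀ i, 2 ≤ (f i).natDegree) {e : ℕ} (he : 2 ≤ e)
    (hf : ∀ i, ∃ g : K[X], f i = g.comp (X ^ e)) {ζ₀ : K} (hζ : IsPrimitiveRoot ζ₀ e) {x y : ℕ → K}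
    (ox : Orb f x) (oy : Orb f y) (cx : Cy x) (cy : Cy y) (hne : x 0 ≠ y 0) {ζ : K}
    (h1 : ζ ^ e = 1) (h2 : ζ ≠ 1) : v (x 0 - ζ * y 0) = 1 := by
  classical
  have hx := h.le hD ox cx
  have hy := h.le hD oy cy
  have hc : ∀ {i : ℕ} {z : K}, v z ≤ 1 → v (f i).leadingCoeff * v z ^ ((f i).natDegree - 1) ≤ 1 := by
    intro i z hz
    rw [h.lead, one_mul]
    exact pow_le_one' hz _
  have hiso : v (x 1 - y 1) = v (x 0 - y 0) := by
    refine (cx.comp₂ cy (fun a b => v (a - b))).const (fun j => ?_) 0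
    rw [ox, oy]
    exact (h.pg j).nonexp (hD j) (hc (hx j)) (hc (hy j))
  obtain ⟨g, hg⟩ := hf 0
  have hle := (h.pg 0).diff_le (hD 0) (by omega) hg (hc (hx 0)) (hc (hy 0))
  have hD0 := hD 0
  rw [h.lead, one_pow, mul_one, ← ox, ← oy, Nat.zero_add, hiso] at hle
  have hle' := le_of_pow_le_pow_left₀ (show (f 0).natDegree - 1 ≠ 0 by omega) zero_le hle
  rw [prod_eq v hζ he, ← Finset.mul_prod_erase _ _ ((mem_roots' he).mpr (one_pow e)), one_mul] at hle'
  have hxy : 0 < v (x 0 - y 0) :=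
    zero_lt_iff.mpr ((Valuation.ne_zero_iff _).mpr (sub_ne_zero.mpr hne))
  have hfac : ∀ ζ ∈ (nthRootsFinset e (1 : K)).erase 1, v (x 0 - ζ * y 0) ≤ 1 := by
    intro ζ hζ'
    have hr := root_v v he ((mem_roots' he).mp (Finset.mem_of_mem_erase hζ'))
    refine (v.map_sub _ _).trans (max_le (hx 0) ?_)
    rw [map_mul, hr, one_mul]
    exact hy 0
  have hone : ∏ ζ ∈ (nthRootsFinset e (1 : K)).erase 1, v (x 0 - ζ * y 0) = 1 := by
    refine le_antisymm (Finset.prod_le_one' hfac) ?_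
    have h4 : v (x 0 - y 0) * 1 ≤ v (x 0 - y 0) *
      ∏ ζ ∈ (nthRootsFinset e (1 : K)).erase 1, v (x 0 - ζ * y 0) := by rw [mul_one]; exact hle'
    exact (mul_le_mul_iff_right₀ hxy).mp h4
  exact all_eq_one _ _ hfac hone ζ (Finset.mem_erase.mpr ⟨h2, (mem_roots' he).mpr h1⟩)

/-! ### the dominated case -/

lemma Dm.bc {f : ℕ → K[X]} {M : ℕ} (h : Dm v M f) (hD : ∀ i, 2 ≤ (f i).natDegree) (i : ℕ) :
    BC v (f i) := by
  have hD' := hD i
  constructor
  · rw [h.lead, one_mul]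
    exact one_lt_pow₀ (h.one i) (by omega)
  · intro k
    rw [h.lead, one_pow, mul_one]
    rcases Nat.eq_zero_or_pos k with rfl | hk
    · rw [Nat.sub_zero]
    · rcases lt_trichotomy k (f i).natDegree with h1 | h1 | h1
      · exact (h.dom i k hk h1).le
      · have h2 := h.lead i
        rw [leadingCoeff] at h2
        rw [h1, Nat.sub_self, pow_zero, h2, one_pow]
      · rw [coeff_eq_zero_of_natDegree_lt h1, map_zero, zero_pow (by omega)]
        exact zero_le

lemma Dm.simple {f : ℕ → K[X]} {M : ℕ} (h : Dm v M f) (hD : ∀ i, 2 ≤ (f i).natDegree) (i : ℕ)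
    {x : K} (hx : v x ^ (f i).natDegree = v ((f i).coeff 0)) :
    v (x * (f i).derivative.eval x) = v ((f i).coeff 0) := by
  have hD' := hD i
  have hc0 : v ((f i).coeff 0) ≠ 0 := ne_of_gt (lt_trans zero_lt_one (h.one i))
  have h1 : x * (f i).derivative.eval x = ∑ k ∈ Finset.range ((f i).natDegree + 1),
      (k : K) * ((f i).coeff k * x ^ k) := by
    rw [derivative_eval, sum_over_range _ (by intro n; simp), Finset.mul_sum]
    refine Finset.sum_congr rfl fun k _ => ?_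
    rcases k with _ | k
    · simp
    · rw [Nat.add_sub_cancel, pow_succ]; ring
  have hlead : v ((f i).coeff (f i).natDegree) = 1 := h.lead i
  have h2 : v (((f i).natDegree : K) * ((f i).coeff (f i).natDegree * x ^ (f i).natDegree)) =
      v ((f i).coeff 0) := by
    rw [map_mul, map_mul, map_pow, h.tame, hlead, one_mul, one_mul, hx]
  rw [h1, Finset.sum_range_succ, add_comm, Valuation.map_add_eq_of_lt_left, h2]
  rw [h2]
  apply Valuation.map_sum_lt _ hc0
  intro k hi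
  rw [Finset.mem_range] at hi
  rcases Nat.eq_zero_or_pos k with rfl | hi0
  · simp only [Nat.cast_zero, zero_mul, map_zero]
    exact zero_lt_iff.mpr hc0
  · rw [map_mul]
    refine lt_of_le_of_lt (mul_le_mul' (v_natCast_le v k) le_rfl) ?_
    rw [one_mul, map_mul, map_pow]
    apply lt_of_pow_lt_pow_left₀ (f i).natDegree zero_le
    calc (v ((f i).coeff k) * v x ^ k) ^ (f i).natDegree
        = v ((f i).coeff k) ^ (f i).natDegree * v ((f i).coeff 0) ^ k := by
          rw [mul_pow, ← pow_mul, Nat.mul_comm k, pow_mul, hx]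
      _ < v ((f i).coeff 0) ^ ((f i).natDegree - k) * v ((f i).coeff 0) ^ k :=
          (mul_lt_mul_iff_left₀ (zero_lt_iff.mpr (pow_ne_zero _ hc0))).mpr (h.dom i k hi0 hi)
      _ = v ((f i).coeff 0) ^ (f i).natDegree := by rw [← pow_add]; congr 1; omega

/-- the radii -/
lemma Dm.radius {f : ℕ → K[X]} {M : ℕ} (h : Dm v M f) (hD : ∀ i, 2 ≤ (f i).natDegree) {x : ℕ → K}
    (ox : Orb f x) (cx : Cy x) (j : ℕ) : v (x j) ^ (f j).natDegree = v ((f j).coeff 0) := by
  have hb := h.bc hD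
  -- escaping points
  have key : ∀ i, v ((f i).coeff 0) < v (x i) ^ (f i).natDegree →
      v ((f (i + 1)).coeff 0) < v (x (i + 1)) ^ (f (i + 1)).natDegree ∧ v (x i) < v (x (i + 1)) := by
    intro i hi
    have hDi := hD i
    have hD' := hD (i + 1)
    have h1 : v (x (i + 1)) = v (x i) ^ (f i).natDegree := by
      rw [ox, (hb i).big (hD i) (by rw [h.lead, one_mul]; exact hi), h.lead, one_mul]
    have hx1 : 1 < v (x i) := by
      by_contra hcon
      rw [not_lt] at hcon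
      exact absurd (lt_trans (h.one i) hi) (not_lt.mpr (pow_le_one' hcon _))
    constructor
    · rw [h1]
      exact lt_trans (h.next i) (pow_lt_pow_left₀ hi zero_le (by omega))
    · rw [h1]; exact lt_self_pow₀ hx1 (by omega)
  have hno : ∀ i, ¬ v ((f i).coeff 0) < v (x i) ^ (f i).natDegree := by
    intro i hi
    have h1 : ∀ k, v ((f (i + k)).coeff 0) < v (x (i + k)) ^ (f (i + k)).natDegree := by
      intro k
      induction k with
      | zero => exact hi
      | succ k ih => exact (key _ ih).1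
    refine ((cx.shift i).comp v).not_incr fun k => ?_
    have := (key _ (h1 k)).2
    rw [Nat.add_right_comm, Nat.add_comm k i]
    exact this
  rcases lt_trichotomy (v (x j) ^ (f j).natDegree) (v ((f j).coeff 0)) with h1 | h1 | h1
  · exfalso
    apply hno (j + 1)
    rw [ox, (hb j).small (hD j) (by rw [h.lead, one_mul]; exact h1)]
    exact h.next j
  · exact h1
  · exact absurd h1 (hno j)

lemma Dm.ne {f : ℕ → K[X]} {M : ℕ} (h : Dm v M f) (hD : ∀ i, 2 ≤ (f i).natDegree) {x : ℕ → K}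
    (ox : Orb f x) (cx : Cy x) (j : ℕ) : v (x j) ≠ 0 := by
  intro h0
  have h1 := h.radius hD ox cx j
  have h2 := hD j
  rw [h0, zero_pow (by omega)] at h1
  exact absurd (h.one j) (by rw [← h1]; exact not_lt.mpr zero_le)

lemma Dm.eq {f : ℕ → K[X]} {M : ℕ} (h : Dm v M f) (hD : ∀ i, 2 ≤ (f i).natDegree) {x y : ℕ → K}
    (ox : Orb f x) (cx : Cy x) (oy : Orb f y) (cy : Cy y) (j : ℕ) : v (x j) = v (y j) := by
  have h2 := hD j
  exact (pow_left_inj₀ zero_le zero_le (by omega)).mp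
    ((h.radius hD ox cx j).trans (h.radius hD oy cy j).symm)

/-- the next point is closer to the origin than the constant term -/
lemma Dm.lt {f : ℕ → K[X]} {M : ℕ} (h : Dm v M f) (hD : ∀ i, 2 ≤ (f i).natDegree) {x : ℕ → K}
    (ox : Orb f x) (cx : Cy x) (j : ℕ) : v (x (j + 1)) < v ((f j).coeff 0) := by
  have h1 := h.radius hD ox cx (j + 1)
  apply lt_of_pow_lt_pow_left₀ (f (j + 1)).natDegree zero_le
  rw [h1]
  exact h.next j

/-- the power condition -/
lemma Dm.power {f : ℕ → K[X]} {M : ℕ} (h : Dm v M f) (hD : ∀ i, 2 ≤ (f i).natDegree)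
    (hM : ∀ i, M ∣ (f i).natDegree - 1) {x : ℕ → K} (ox : Orb f x) (cx : Cy x) (j : ℕ) :
    ∃ g, g ≠ 0 ∧ v (x (j + 1)) * g ^ M = v ((f j).coeff 0) := by
  obtain ⟨a, ha⟩ := h.pow j
  have h1 := h.radius hD ox cx j
  have h2 := h.radius hD ox cx (j + 1)
  have h3 := hD j
  have h4 := hD (j + 1)
  obtain ⟨q, hq⟩ := hM j
  have hx := h.ne hD ox cx j
  have hx' := h.ne hD ox cx (j + 1)
  set D := (f j).natDegree with hDdef
  set D' := (f (j + 1)).natDegree with hD'def
  have h5 : v (x (j + 1)) = v (x j) * v a ^ M := by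
    rw [← pow_left_inj₀ (n := D' * D) zero_le zero_le (Nat.mul_ne_zero (by omega) (by omega)),
      pow_mul, h2, ha, mul_pow, Nat.mul_comm D' D, pow_mul (v (x j)), h1, ← pow_mul (v a),
      Nat.mul_assoc]
  have ha0 : v a ^ M ≠ 0 := by
    intro h0
    rw [h0, mul_zero] at h5
    exact hx' h5
  have ha1 : v a ≠ 0 := by
    intro h0
    rcases Nat.eq_zero_or_pos M with hM0 | hM0
    · -- then `D = 1`
      rw [hM0, Nat.zero_mul] at hq
      omega
    · rw [h0, zero_pow (by omega)] at ha0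
      exact ha0 rfl
  refine ⟨v (x j) ^ q / v a, div_ne_zero (pow_ne_zero _ hx) ha1, ?_⟩
  rw [div_pow, h5, ← pow_mul, mul_assoc, mul_div_cancel₀ _ ha0, ← pow_succ', ← h1]
  congr 1
  rw [Nat.mul_comm]
  omega

/-- the differences -/
theorem Dm.diff {f : ℕ → K[X]} {M : ℕ} (h : Dm v M f) (hD : ∀ i, 2 ≤ (f i).natDegree)
    (hM : ∀ i, M ∣ (f i).natDegree - 1) {x y : ℕ → K} (ox : Orb f x) (cx : Cy x) (oy : Orb f y)
    (cy : Cy y) (hne : x 0 ≠ y 0) (j : ℕ) : ∃ g, v (x j - y j) = g ^ M * v (x j) := by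
  have hle : ∀ j, v (x j - y j) ≤ v (x j) := by
    intro j
    refine (v.map_sub _ _).trans ?_
    rw [h.eq hD ox cx oy cy j, max_self]
  have hstep : ∀ j, v (x j - y j) < v (x j) →
      v (x (j + 1) - y (j + 1)) * v (x j) = v ((f j).coeff 0) * v (x j - y j) := by
    intro j hj
    have := (h.bc hD j).step (hD j) (x := x j) (y := y j) (by
      rw [h.lead, one_mul]; exact h.radius hD ox cx j) (h.simple hD j (h.radius hD ox cx j)) hj
    rw [ox, oy]
    exact this
  -- some difference is large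
  have hex : ∃ i, v (x i - y i) = v (x i) := by
    by_contra hcon
    push Not at hcon
    have hlt : ∀ j, v (x j - y j) < v (x j) := fun j => lt_of_le_of_ne (hle j) (hcon j)
    refine (cx.comp₂ cy (fun a b => v (a - b) / v a)).not_incr fun j => ?_
    have h1 := h.ne hD ox cx j
    have h2 := h.ne hD ox cx (j + 1)
    rw [div_lt_div_iff₀ (zero_lt_iff.mpr h1) (zero_lt_iff.mpr h2), hstep j (hlt j), mul_comm]
    refine (mul_lt_mul_iff_left₀ ?_).mpr (h.lt hD ox cx j)
    exact zero_lt_iff.mpr ((Valuation.ne_zero_iff _).mpr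
      (sub_ne_zero.mpr (ox.ne oy cx cy hne j)))
  obtain ⟨i, hi⟩ := hex
  obtain ⟨k, hk, hk'⟩ := (cx.comp₂ cy (fun a b => (v (a - b), v a))).later j i
  simp only [Prod.mk.injEq] at hk'
  rw [hi] at hk'
  have hk2 : v (x k - y k) = v (x k) := hk'.1.trans hk'.2.symm
  -- backward induction
  obtain ⟨n, rfl⟩ := Nat.exists_eq_add_of_le hk
  clear hk hk' hi
  induction n generalizing j with
  | zero => exact ⟨1, by rw [one_pow, one_mul]; exact hk2⟩
  | succ n ih =>
    obtain ⟨g, hg⟩ := ih (j + 1) (by rw [Nat.add_right_comm]; exact hk2)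
    rcases lt_or_eq_of_le (hle j) with h1 | h1
    · obtain ⟨p, hp0, hp⟩ := h.power hD hM ox cx j
      have h2 := hstep j h1
      have hx' := h.ne hD ox cx (j + 1)
      rw [hg, ← hp] at h2
      refine ⟨g / p, ?_⟩
      rw [div_pow, div_mul_eq_mul_div, eq_div_iff (pow_ne_zero _ hp0)]
      apply mul_left_cancel₀ hx'
      calc v (x (j + 1)) * (v (x j - y j) * p ^ M) = v (x (j + 1)) * p ^ M * v (x j - y j) := by
            ac_rfl
        _ = g ^ M * v (x (j + 1)) * v (x j) := h2.symm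
        _ = _ := by ac_rfl
    · exact ⟨1, by rw [one_pow, one_mul]; exact h1⟩

theorem Dm.zeta {f : ℕ → K[X]} {M : ℕ} (h : Dm v M f) (hD : ∀ i, 2 ≤ (f i).natDegree)
    (hM : ∀ i, M ∣ (f i).natDegree - 1) {e : ℕ} (he : 2 ≤ e)
    (hf : ∀ i, ∃ g : K[X], f i = g.comp (X ^ e)) {x y : ℕ → K}
    (ox : Orb f x) (cx : Cy x) (oy : Orb f y) (cy : Cy y) (hne : x 0 ≠ y 0) {ζ : K}
    (h1 : ζ ^ e = 1) : ∃ g, v (x 0 - ζ * y 0) = g ^ M * v (x 0) := by
  have hζ1 := root_v v he h1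
  have hle : v (x 0 - ζ * y 0) ≤ v (x 0) := by
    refine (v.map_sub _ _).trans ?_
    rw [map_mul, hζ1, one_mul, h.eq hD ox cx oy cy 0, max_self]
  rcases lt_or_eq_of_le hle with h2 | h2
  · obtain ⟨F, hF⟩ := hf 0
    have h3 := (h.bc hD 0).step (hD 0) (x := x 0) (y := ζ * y 0) (by
      rw [h.lead, one_mul]; exact h.radius hD ox cx 0) (h.simple hD 0 (h.radius hD ox cx 0)) h2
    have h4 : (f 0).eval (ζ * y 0) = (f 0).eval (y 0) := by
      rw [hF, eval_comp, eval_comp, eval_pow, eval_pow, eval_X, eval_X, mul_pow, h1, one_mul]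
    rw [h4, ← ox, ← oy, Nat.zero_add] at h3
    obtain ⟨g, hg⟩ := h.diff hD hM ox cx oy cy hne 1
    obtain ⟨p, hp0, hp⟩ := h.power hD hM ox cx 0
    have hx' := h.ne hD ox cx (0 + 1)
    rw [Nat.zero_add] at hp hx'
    rw [hg, ← hp] at h3
    refine ⟨g / p, ?_⟩
    rw [div_pow, div_mul_eq_mul_div, eq_div_iff (pow_ne_zero _ hp0)]
    apply mul_left_cancel₀ hx'
    calc v (x 1) * (v (x 0 - ζ * y 0) * p ^ M) = v (x 1) * p ^ M * v (x 0 - ζ * y 0) := by
          ac_rfl
      _ = g ^ M * v (x 1) * v (x 0) := h3.symm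
      _ = _ := by ac_rfl
  · exact ⟨1, by rw [one_pow, one_mul]; exact h2⟩

/-- both cases together -/
theorem local_zeta {f : ℕ → K[X]} {M : ℕ} (h : In v f ∨ Dm v M f)
    (hD : ∀ i, 2 ≤ (f i).natDegree) (hM : ∀ i, M ∣ (f i).natDegree - 1) {e : ℕ} (he : 2 ≤ e)
    (hf : ∀ i, ∃ g : K[X], f i = g.comp (X ^ e)) {ζ₀ : K} (hζ : IsPrimitiveRoot ζ₀ e)
    {x y x' y' : ℕ → K} (ox : Orb f x) (cx : Cy x) (oy : Orb f y) (cy : Cy y) (hne : x 0 ≠ y 0)
    (ox' : Orb f x') (cx' : Cy x') (oy' : Orb f y') (cy' : Cy y') (hne' : x' 0 ≠ y' 0)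
    {ζ ζ' : K} (h1 : ζ ^ e = 1) (h2 : ζ ≠ 1) (h1' : ζ' ^ e = 1) (h2' : ζ' ≠ 1) :
    ∃ a, v (x 0 - ζ * y 0) = a ^ M * v (x' 0 - ζ' * y' 0) := by
  rcases h with h | h
  · refine ⟨1, ?_⟩
    rw [h.zeta hD he hf hζ ox oy cx cy hne h1 h2, h.zeta hD he hf hζ ox' oy' cx' cy' hne' h1' h2',
      one_pow, one_mul]
  · obtain ⟨g, hg⟩ := h.zeta hD hM he hf ox cx oy cy hne h1
    obtain ⟨g', hg'⟩ := h.zeta hD hM he hf ox' cx' oy' cy' hne' h1'
    have h3 := h.eq hD ox cx ox' cx' 0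
    have hx' := h.ne hD ox' cx' 0
    by_cases hg0 : g' ^ M = 0
    · exfalso
      rw [hg0, zero_mul, Valuation.zero_iff, sub_eq_zero] at hg'
      obtain ⟨F, hF⟩ := hf 0
      have h4 : (f 0).eval (x' 0) = (f 0).eval (y' 0) := by
        rw [hg', hF, eval_comp, eval_comp, eval_pow, eval_pow, eval_X, eval_X, mul_pow, h1',
          one_mul]
      rw [← ox', ← oy'] at h4
      exact ox'.ne oy' cx' cy' hne' _ h4
    · refine ⟨g / g', ?_⟩
      rw [hg, hg', h3, div_pow, ← mul_assoc, div_mul_cancel₀ _ hg0]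

end

end Pool.Agent.H422.CO
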