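import Mathlib
import Pool.Agent.H422.CO.Loc

/-!
# Compositions of polynomials in `z ^ e`: number fields
-/

set_option autoImplicit false

open Polynomial IsDedekindDomain NumberField

namespace Pool.Agent.H422.CO

open Pool.Agent.H422.HE Pool.Agent.H422.UC Pool.Agent.H422.MF Pool.Agent.H422.MR
  Pool.Agent.H422.DC

section lift

variable {K : Type} [Field K] [NumberField K] {L : Type} [Field L] [NumberField L] [Algebra K L]
  {w : HeightOneSpectrum (𝓞 L)} {f : ℕ → K[X]}

lemma In.up (h : In ((w.under (𝓞 K)).valuation K) f) :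
    In (w.valuation L) (fun i => (f i).map (algebraMap K L)) := by
  obtain ⟨r, hr, hv⟩ := val_under (K := K) L w
  constructor
  · intro i
    rw [leadingCoeff_map, hv, h.lead, one_pow]
  · intro i k
    rw [coeff_map, hv]
    exact pow_le_one' (h.int i k) r

lemma Dm.up {M : ℕ} (h : Dm ((w.under (𝓞 K)).valuation K) M f) :
    Dm (w.valuation L) M (fun i => (f i).map (algebraMap K L)) := by
  obtain ⟨r, hr, hv⟩ := val_under (K := K) L w
  constructor
  · intro i
    rw [leadingCoeff_map, hv, h.lead, one_pow]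
  · intro i
    rw [natDegree_map, ← map_natCast (algebraMap K L), hv, h.tame, one_pow]
  · intro i
    rw [coeff_map, hv]
    exact one_lt_pow₀ (h.one i) hr
  · intro i k hk hk'
    rw [natDegree_map] at hk' ⊢
    rw [coeff_map, coeff_map, hv, hv, ← pow_mul, ← pow_mul, Nat.mul_comm r, Nat.mul_comm r,
      pow_mul, pow_mul]
    exact pow_lt_pow_left₀ (h.dom i k hk hk') zero_le hr
  · intro i
    rw [natDegree_map, coeff_map, coeff_map, hv, hv, ← pow_mul, Nat.mul_comm r, pow_mul]
    exact pow_lt_pow_left₀ (h.next i) zero_le hr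
  · intro i
    obtain ⟨a, ha⟩ := h.pow i
    refine ⟨algebraMap K L a, ?_⟩
    rw [natDegree_map, natDegree_map, coeff_map, coeff_map, hv, hv, hv, ← pow_mul, ← pow_mul,
      ← pow_mul, Nat.mul_comm r, Nat.mul_comm r, Nat.mul_comm r, pow_mul, pow_mul, pow_mul,
      ha, mul_pow]

omit [NumberField K] [NumberField L] in
lemma Orb.map {x : ℕ → K} (h : Orb f x) :
    Orb (fun i => (f i).map (algebraMap K L)) (fun j => algebraMap K L (x j)) := by
  intro j
  simp only
  rw [h j, eval_map_algebraMap, aeval_algebraMap_apply_eq_algebraMap_eval]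

omit [NumberField K] [NumberField L] in
/-- `x ≠ ζ y` -/
lemma Orb.ne_root {x y : ℕ → K} (ox : Orb f x) (oy : Orb f y) (cx : Cy x) (cy : Cy y)
    (hne : x 0 ≠ y 0) {e : ℕ} (hf : ∃ g : K[X], f 0 = g.comp (X ^ e)) {ζ : L} (h1 : ζ ^ e = 1) :
    algebraMap K L (x 0) - ζ * algebraMap K L (y 0) ≠ 0 := by
  intro h
  obtain ⟨g, hg⟩ := hf
  have h2 : algebraMap K L (x 0 ^ e) = algebraMap K L (y 0 ^ e) := by
    rw [map_pow, map_pow, sub_eq_zero.mp h, mul_pow, h1, one_mul]
  have h3 := (algebraMap K L).injective h2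
  have h4 : (f 0).eval (x 0) = (f 0).eval (y 0) := by
    rw [hg, eval_comp, eval_comp, eval_pow, eval_pow, eval_X, eval_X, h3]
  rw [← ox, ← oy] at h4
  exact ox.ne oy cx cy hne _ h4

/-- the local statement over `L` -/
theorem lift_zeta {M : ℕ}
    (h : In ((w.under (𝓞 K)).valuation K) f ∨ Dm ((w.under (𝓞 K)).valuation K) M f)
    (hD : ∀ i, 2 ≤ (f i).natDegree) (hM : ∀ i, M ∣ (f i).natDegree - 1) {e : ℕ} (he : 2 ≤ e)
    (hf : ∀ i, ∃ g : K[X], f i = g.comp (X ^ e)) {ζ₀ : L} (hζ : IsPrimitiveRoot ζ₀ e)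
    {x y x' y' : ℕ → K} (ox : Orb f x) (cx : Cy x) (oy : Orb f y) (cy : Cy y) (hne : x 0 ≠ y 0)
    (ox' : Orb f x') (cx' : Cy x') (oy' : Orb f y') (cy' : Cy y') (hne' : x' 0 ≠ y' 0)
    {ζ ζ' : L} (h1 : ζ ^ e = 1) (h2 : ζ ≠ 1) (h1' : ζ' ^ e = 1) (h2' : ζ' ≠ 1) :
    ∃ a, w.valuation L (algebraMap K L (x 0) - ζ * algebraMap K L (y 0)) =
      a ^ M * w.valuation L (algebraMap K L (x' 0) - ζ' * algebraMap K L (y' 0)) := by
  have h' : In (w.valuation L) (fun i => (f i).map (algebraMap K L)) ∨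
      Dm (w.valuation L) M (fun i => (f i).map (algebraMap K L)) := h.imp In.up Dm.up
  have hinj : ∀ {a b : K}, a ≠ b → algebraMap K L a ≠ algebraMap K L b := fun h h' =>
    h ((algebraMap K L).injective h')
  exact local_zeta (f := fun i => (f i).map (algebraMap K L)) h'
    (fun i => by rw [natDegree_map]; exact hD i)
    (fun i => by rw [natDegree_map]; exact hM i) he (fun i => by
      obtain ⟨g, hg⟩ := hf i
      refine ⟨g.map (algebraMap K L), ?_⟩
      rw [hg, Polynomial.map_comp]; simp) hζ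
    (x := fun j => algebraMap K L (x j)) (y := fun j => algebraMap K L (y j))
    (x' := fun j => algebraMap K L (x' j)) (y' := fun j => algebraMap K L (y' j))
    ox.map (cx.comp _) oy.map (cy.comp _) (hinj hne) ox'.map (cx'.comp _) oy'.map (cy'.comp _)
    (hinj hne') h1 h2 h1' h2'

end lift

section glob

/-- A set all of whose twisted differences are in the same power class is bounded. -/
theorem zeta_abs (K : Type) [Field K] [NumberField K] {S : Set (HeightOneSpectrum (𝓞 K))}
    (hS : S.Finite) {M e : ℕ} [NeZero e] (hM : 4 ≤ M) (he : 3 ≤ e) :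
    ∃ B : ℕ, ∀ P : K → Prop,
      (∀ w : HeightOneSpectrum (𝓞 (CyclotomicField e K)), w.under (𝓞 K) ∉ S →
        ∀ x y x' y', P x → P y → x ≠ y → P x' → P y' → x' ≠ y' → ∀ ζ ζ' : CyclotomicField e K,
          ζ ^ e = 1 → ζ ≠ 1 → ζ' ^ e = 1 → ζ' ≠ 1 → ∃ a,
            w.valuation (CyclotomicField e K) (algebraMap K _ x - ζ * algebraMap K _ y) =
            a ^ M * w.valuation (CyclotomicField e K)
              (algebraMap K _ x' - ζ' * algebraMap K _ y')) →
      (∀ x y, P x → P y → x ≠ y → ∀ ζ : CyclotomicField e K, ζ ^ e = 1 →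
        algebraMap K _ x - ζ * algebraMap K _ y ≠ 0) →
      ∀ T : Finset K, (∀ x ∈ T, P x) → T.card ≤ B := by
  classical
  have : NeZero ((e : ℕ) : K) := ⟨Nat.cast_ne_zero.mpr (by omega)⟩
  set L := CyclotomicField e K with hL
  have hω := IsCyclotomicExtension.zeta_spec e K L
  set ω := IsCyclotomicExtension.zeta e K L with hωdef
  have hω0 : ω ≠ 0 := hω.ne_zero (by omega)
  have hω1 : ω ≠ 1 := hω.ne_one (by omega)
  have hω2 : ω ^ 2 ≠ 1 := fun h => by
    have := hω.dvd_of_pow_eq_one 2 h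
    have := Nat.le_of_dvd (by norm_num) this
    omega
  have hSL := under_finite (K := K) L hS
  refine ⟨(TT_finite hSL hM).toFinset.card + 2, fun P hloc hnz T hT => ?_⟩
  by_cases hcard : T.card ≤ 2
  · omega
  rw [not_le] at hcard
  obtain ⟨x, hx, y, hy, hxy⟩ := Finset.one_lt_card.mp (by omega : 1 < T.card)
  have px := hT x hx
  have py := hT y hy
  set A := algebraMap K L with hA
  have hbase : A x - ω * A y ≠ 0 := hnz x y px py hxy ω hω.pow_eq_one
  have key : ((T.erase x).erase y).card ≤ (TT_finite hSL hM).toFinset.card := by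
    refine Finset.card_le_card_of_injOn (fun z => -(ω * (A y - ω * A z)) / (A x - ω * A y)) ?_ ?_
    · intro z hz
      rw [Finset.mem_coe, Finset.mem_erase, Finset.mem_erase] at hz
      obtain ⟨hzy, hzx, hzT⟩ := hz
      have pz := hT z hzT
      rw [Finset.mem_coe, Set.Finite.mem_toFinset]
      intro w hw
      have hw' : w.under (𝓞 K) ∉ S := hw
      have hvω := root_v (w.valuation L) (by omega : 2 ≤ e) hω.pow_eq_one
      have hvb : w.valuation L (A x - ω * A y) ≠ 0 := (Valuation.ne_zero_iff _).mpr hbase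
      constructor
      · obtain ⟨a, ha⟩ := hloc w hw' y z x y py pz (Ne.symm hzy) px py hxy ω ω
          hω.pow_eq_one hω1 hω.pow_eq_one hω1
        refine ⟨a, ?_⟩
        rw [map_div₀, Valuation.map_neg, map_mul, hvω, one_mul, ha, mul_div_cancel_right₀ _ hvb]
      · have h1 : (ω ^ (e - 2)) ^ e = 1 := by
          rw [← pow_mul, Nat.mul_comm, pow_mul, hω.pow_eq_one, one_pow]
        have h2 : ω ^ (e - 2) * ω ^ 2 = 1 := by
          rw [← pow_add, Nat.sub_add_cancel (by omega), hω.pow_eq_one]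
        have h3 : ω ^ (e - 2) ≠ 1 := by
          intro h3
          rw [h3, one_mul] at h2
          exact hω2 h2
        obtain ⟨a, ha⟩ := hloc w hw' z x x y pz px hzx px py hxy (ω ^ (e - 2)) ω
          h1 h3 hω.pow_eq_one hω1
        refine ⟨a, ?_⟩
        have e1 : -(ω * (A y - ω * A z)) / (A x - ω * A y) - 1 =
            ω ^ 2 * (A z - ω ^ (e - 2) * A x) / (A x - ω * A y) := by
          rw [div_sub_one hbase]
          congr 1
          linear_combination A x * h2
        rw [e1, map_div₀, map_mul, map_pow, hvω, one_pow, one_mul, ha,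
          mul_div_cancel_right₀ _ hvb]
    · intro z _ z' _ he'
      simp only at he'
      rw [div_left_inj' hbase, neg_inj, mul_right_inj' hω0, sub_right_inj,
        mul_right_inj' hω0] at he'
      exact A.injective he'
  rw [Finset.card_erase_of_mem (Finset.mem_erase.mpr ⟨hxy.symm, hy⟩),
    Finset.card_erase_of_mem hx] at key
  omega

/-- **cyclic orbits of sequences of polynomials** -/
theorem seq_bound (K : Type) [Field K] [NumberField K] {S : Set (HeightOneSpectrum (𝓞 K))}
    (hS : S.Finite) {M e : ℕ} (hM : 4 ≤ M) (he : 3 ≤ e) :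
    ∃ B : ℕ, ∀ f : ℕ → K[X], (∀ i, 2 ≤ (f i).natDegree) → (∀ i, M ∣ (f i).natDegree - 1) →
      (∀ i, ∃ g : K[X], f i = g.comp (X ^ e)) →
      (∀ v ∉ S, In (v.valuation K) f ∨ Dm (v.valuation K) M f) →
      ∀ T : Finset K, (∀ a ∈ T, ∃ x : ℕ → K, x 0 = a ∧ Orb f x ∧ Cy x) → T.card ≤ B := by
  have : NeZero e := ⟨by omega⟩
  have : NeZero ((e : ℕ) : K) := ⟨Nat.cast_ne_zero.mpr (by omega)⟩
  have hω := IsCyclotomicExtension.zeta_spec e K (CyclotomicField e K)
  obtain ⟨B, hB⟩ := zeta_abs K hS hM he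
  refine ⟨B, fun f hD hM' hf hloc T hT => ?_⟩
  refine hB (fun a => ∃ x : ℕ → K, x 0 = a ∧ Orb f x ∧ Cy x) ?_ ?_ T hT
  · rintro w hw _ _ _ _ ⟨x, rfl, ox, cx⟩ ⟨y, rfl, oy, cy⟩ hne ⟨x', rfl, ox', cx'⟩
      ⟨y', rfl, oy', cy'⟩ hne' ζ ζ' h1 h2 h1' h2'
    exact lift_zeta (hloc _ hw) hD hM' (by omega) hf hω ox cx oy cy hne ox' cx' oy' cy' hne'
      h1 h2 h1' h2'
  · rintro _ _ ⟨x, rfl, ox, cx⟩ ⟨y, rfl, oy, cy⟩ hne ζ h1
    exact ox.ne_root oy cx cy hne (hf 0) h1

/-- ratios of points -/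
def RT (K : Type) [Field K] [NumberField K] (S : Set (HeightOneSpectrum (𝓞 K))) (M d : ℕ)
    [NeZero d] : Set K :=
  {t : K | ∀ w : HeightOneSpectrum (𝓞 (CyclotomicField d K)), w.under (𝓞 K) ∉ S →
    ∀ r ∈ rts (CyclotomicField d K) d, ∀ s ∈ rts (CyclotomicField d K) d, ∃ g,
      w.valuation (CyclotomicField d K) (algebraMap K _ t - r) =
      g ^ M * w.valuation (CyclotomicField d K) (algebraMap K _ t - s)}

lemma RT_finite (K : Type) [Field K] [NumberField K] {S : Set (HeightOneSpectrum (𝓞 K))}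
    (hS : S.Finite) {M d : ℕ} [NeZero d] (hM : 4 ≤ M) (hd : 4 ≤ d) : (RT K S M d).Finite := by
  classical
  have : NeZero ((d : ℕ) : K) := ⟨Nat.cast_ne_zero.mpr (by omega)⟩
  set L := CyclotomicField d K with hL
  have hω := IsCyclotomicExtension.zeta_spec d K L
  have hSL := under_finite (K := K) L hS
  have h1 := pow_fin_proj L hSL (m := M) (R := rts L d) (by
    left
    refine ⟨hM, ?_⟩
    rw [rts, Finset.card_erase_of_mem ((mem_roots' (by omega)).mpr (one_pow d)),
      hω.card_nthRootsFinset]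
    omega)
  exact h1.preimage ((algebraMap K L).injective.injOn)

end glob

end Pool.Agent.H422.CO
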