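import Mathlib
import Pool.Agent.H422.CO.Glob

/-!
# Compositions of polynomials in `z ^ e`: main theorems
-/

set_option autoImplicit false

open Polynomial IsDedekindDomain NumberField

namespace Pool.Agent.H422.CO

open Pool.Agent.H422.HE Pool.Agent.H422.UC Pool.Agent.H422.MF Pool.Agent.H422.MR
  Pool.Agent.H422.DC

section comp

variable {K : Type*} [Field K]

/-- `f (k - 1) ∘ ⋯ ∘ f 0` -/
noncomputable def cmp (f : ℕ → K[X]) : ℕ → K[X]
  | 0 => X
  | k + 1 => (f k).comp (cmp f k)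

lemma cmp_orb (f : ℕ → K[X]) (a : K) : Orb f (fun j => (cmp f j).eval a) := by
  intro j
  simp only [cmp, eval_comp]

lemma Orb.eval_cmp {f : ℕ → K[X]} {x : ℕ → K} (h : Orb f x) (j : ℕ) :
    x j = (cmp f j).eval (x 0) := by
  induction j with
  | zero => simp [cmp]
  | succ j ih => rw [h j, cmp, eval_comp, ← ih]

lemma cmp_shift (f : ℕ → K[X]) {n : ℕ} (hf : ∀ i, f (i + n) = f i) (a : K) (j : ℕ) :
    (cmp f (j + n)).eval a = (cmp f j).eval ((cmp f n).eval a) := by
  induction j with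
  | zero => rw [Nat.zero_add]; simp [cmp]
  | succ j ih => rw [Nat.add_right_comm, cmp, eval_comp, ih, hf, cmp, eval_comp]

lemma cmp_iter (f : ℕ → K[X]) {n : ℕ} (hf : ∀ i, f (i + n) = f i) (a : K) (m j : ℕ) :
    (cmp f (j + n * m)).eval a = (cmp f j).eval ((fun z => (cmp f n).eval z)^[m] a) := by
  induction m generalizing a with
  | zero => simp
  | succ m ih =>
    rw [Nat.mul_succ, ← Nat.add_assoc, cmp_shift f hf, ih, Function.iterate_succ_apply]

/-- periodic points of the composition give cyclic orbits -/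
lemma cy_of_per {f : ℕ → K[X]} {n : ℕ} (hn : 0 < n) (hf : ∀ i, f (i + n) = f i) {a : K}
    (h : Per (fun z => (cmp f n).eval z) a) :
    ∃ x : ℕ → K, x 0 = a ∧ Orb f x ∧ Cy x := by
  obtain ⟨m, hm, he⟩ := h
  refine ⟨fun j => (cmp f j).eval a, by simp [cmp], cmp_orb f a, n * m, Nat.mul_pos hn hm,
    fun j => ?_⟩
  simp only
  rw [cmp_iter f hf, he]

end comp

section unicritical

variable {K : Type} [Field K] [NumberField K] {S : Set (HeightOneSpectrum (𝓞 K))} {d : ℕ}

/-- the sequence of unicritical polynomials -/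
noncomputable def uni (d : ℕ) (c : ℕ → K) : ℕ → K[X] := fun i => X ^ d + C (c i)

omit [NumberField K] in
lemma uni_deg (_ : 2 ≤ d) (c : ℕ → K) (i : ℕ) : (uni d c i).natDegree = d :=
  natDegree_X_pow_add_C

omit [NumberField K] in
lemma uni_comp (c : ℕ → K) (i : ℕ) : ∃ g : K[X], uni d c i = g.comp (X ^ d) :=
  ⟨X + C (c i), by simp [uni]⟩

/-- representatives -/
noncomputable def rep (x y : K) : K × K := by
  classical exact if y = 0 then (1, 0) else (x / y, 1)

noncomputable def fac (x y : K) : K := by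
  classical exact if y = 0 then x else y

omit [NumberField K] in
lemma rep_fst (x y : K) : fac x y * (rep x y).1 = x := by
  unfold fac rep
  by_cases h : y = 0
  · simp [h]
  · simp only [h, ↓reduceIte]
    rw [mul_div_cancel₀ _ h]

omit [NumberField K] in
lemma rep_snd (x y : K) : fac x y * (rep x y).2 = y := by
  unfold fac rep
  by_cases h : y = 0
  · simp [h]
  · simp [h]

/-- the finite set of representatives -/
def RR (K : Type) [Field K] [NumberField K] (S : Set (HeightOneSpectrum (𝓞 K))) (d : ℕ)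
    [NeZero d] : Set (K × K) :=
  {(1, 0)} ∪ (fun t : K => (t, (1 : K))) '' (RT K S (d - 1) d)

lemma RR_finite [NeZero d] (hS : S.Finite) (hd : 5 ≤ d) : (RR K S d).Finite :=
  (Set.finite_singleton _).union ((RT_finite K hS (by omega) (by omega)).image _)

/-- the pairs of points of two cyclic orbits -/
lemma mem_RR [NeZero d] (hd : 5 ≤ d) {c : ℕ → K}
    (hloc : ∀ v ∉ S, In (v.valuation K) (uni d c) ∨ Dm (v.valuation K) (d - 1) (uni d c))
    {x y : ℕ → K} (ox : Orb (uni d c) x) (cx : Cy x) (oy : Orb (uni d c) y) (cy : Cy y)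
    (hne : x 0 ≠ y 0) (j : ℕ) : rep (x j) (y j) ∈ RR K S d := by
  have : NeZero ((d : ℕ) : K) := ⟨Nat.cast_ne_zero.mpr (by omega)⟩
  have hω := IsCyclotomicExtension.zeta_spec d K (CyclotomicField d K)
  by_cases h0 : y j = 0
  · left
    simp [rep, h0]
  · right
    refine ⟨x j / y j, ?_, by simp [rep, h0]⟩
    intro w hw r hr s hs
    obtain ⟨r1, r2⟩ := (mem_rts (by omega)).mp hr
    obtain ⟨s1, s2⟩ := (mem_rts (by omega)).mp hs
    have hnej := ox.ne oy cx cy hne j
    have e0 : x (0 + j) = x j := by rw [Nat.zero_add]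
    have e0' : y (0 + j) = y j := by rw [Nat.zero_add]
    obtain ⟨a, ha⟩ := lift_zeta (K := K) (L := CyclotomicField d K) (w := w)
      (f := fun k => uni d c (k + j)) (M := d - 1)
      ((hloc _ hw).imp (fun h => h.shift j) (fun h => h.shift j))
      (fun i => by rw [uni_deg (by omega)]; omega) (fun i => by rw [uni_deg (by omega)])
      (e := d) (by omega) (fun i => uni_comp c _) hω (ox.shift j) (cx.shift j) (oy.shift j)
      (cy.shift j) (by rw [e0, e0']; exact hnej) (ox.shift j) (cx.shift j) (oy.shift j)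
      (cy.shift j) (by rw [e0, e0']; exact hnej) r1 r2 s1 s2
    rw [e0, e0'] at ha
    refine ⟨a, ?_⟩
    have hy0 : algebraMap K (CyclotomicField d K) (y j) ≠ 0 := (_root_.map_ne_zero _).mpr h0
    have e : ∀ r : CyclotomicField d K, algebraMap K _ (x j / y j) - r =
        (algebraMap K _ (x j) - r * algebraMap K _ (y j)) / algebraMap K _ (y j) := by
      intro r
      rw [map_div₀]
      field_simp
    rw [e, e, map_div₀, map_div₀, ha, mul_div_assoc]

/-- the factors -/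
def MU (K : Type) [Field K] [NumberField K] (S : Set (HeightOneSpectrum (𝓞 K))) (d : ℕ)
    [NeZero d] : Set K :=
  (fun p : (K × K) × (K × K) => (p.1.1 ^ d - p.1.2 ^ d) / (p.2.1 - p.2.2)) ''
    ((RR K S d) ×ˢ (RR K S d))

/-- products of the factors -/
def VV (K : Type) [Field K] [NumberField K] (S : Set (HeightOneSpectrum (𝓞 K))) (d : ℕ)
    [NeZero d] : ℕ → Set K
  | 0 => {1}
  | k + 1 => (fun p : K × K => p.1 * p.2 ^ d) '' (MU K S d ×ˢ VV K S d k)

lemma VV_finite [NeZero d] (hS : S.Finite) (hd : 5 ≤ d) (k : ℕ) : (VV K S d k).Finite := by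
  induction k with
  | zero => exact Set.finite_singleton _
  | succ k ih =>
    exact ((((RR_finite hS hd).prod (RR_finite hS hd)).image _).prod ih).image _

lemma fac_step [NeZero d] (hd : 5 ≤ d) {c : ℕ → K}
    (hloc : ∀ v ∉ S, In (v.valuation K) (uni d c) ∨ Dm (v.valuation K) (d - 1) (uni d c))
    {x y : ℕ → K} (ox : Orb (uni d c) x) (cx : Cy x) (oy : Orb (uni d c) y) (cy : Cy y)
    (hne : x 0 ≠ y 0) (j : ℕ) :
    ∃ μ ∈ MU K S d, fac (x (j + 1)) (y (j + 1)) = μ * fac (x j) (y j) ^ d := by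
  refine ⟨_, ⟨(rep (x j) (y j), rep (x (j + 1)) (y (j + 1))),
    ⟨mem_RR hd hloc ox cx oy cy hne j, mem_RR hd hloc ox cx oy cy hne (j + 1)⟩, rfl⟩, ?_⟩
  have h1 : x (j + 1) - y (j + 1) = x j ^ d - y j ^ d := by
    rw [ox j, oy j]; simp [uni]
  have h2 := ox.ne oy cx cy hne (j + 1)
  have e1 := rep_fst (x (j + 1)) (y (j + 1))
  have e2 := rep_snd (x (j + 1)) (y (j + 1))
  have e3 := rep_fst (x j) (y j)
  have e4 := rep_snd (x j) (y j)
  set u := fac (x (j + 1)) (y (j + 1)) with hu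
  set p := rep (x (j + 1)) (y (j + 1)) with hp
  set u' := fac (x j) (y j) with hu'
  set p' := rep (x j) (y j) with hp'
  have h3 : p.1 - p.2 ≠ 0 := by
    intro h0
    apply h2
    rw [← e1, ← e2, sub_eq_zero.mp h0]
  simp only
  rw [div_mul_eq_mul_div, eq_div_iff h3]
  calc u * (p.1 - p.2) = u * p.1 - u * p.2 := by ring
    _ = (u' * p'.1) ^ d - (u' * p'.2) ^ d := by rw [e1, e2, e3, e4, h1]
    _ = _ := by rw [mul_pow, mul_pow]; ring

lemma fac_many [NeZero d] (hd : 5 ≤ d) {c : ℕ → K}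
    (hloc : ∀ v ∉ S, In (v.valuation K) (uni d c) ∨ Dm (v.valuation K) (d - 1) (uni d c))
    {x y : ℕ → K} (ox : Orb (uni d c) x) (cx : Cy x) (oy : Orb (uni d c) y) (cy : Cy y)
    (hne : x 0 ≠ y 0) (j k : ℕ) :
    ∃ μ ∈ VV K S d k, fac (x (j + k)) (y (j + k)) = μ * fac (x j) (y j) ^ d ^ k := by
  induction k with
  | zero => exact ⟨1, rfl, by simp⟩
  | succ k ih =>
    obtain ⟨μ, hμ, h1⟩ := ih
    obtain ⟨μ', hμ', h2⟩ := fac_step hd hloc ox cx oy cy hne (j + k)
    refine ⟨μ' * μ ^ d, ⟨(μ', μ), ⟨hμ', hμ⟩, rfl⟩, ?_⟩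
    rw [← Nat.add_assoc, h2, h1, mul_pow, ← pow_mul, ← pow_succ]
    ring

omit [NumberField K] in
lemma fac_ne (x y : K) (h : x ≠ y) : fac x y ≠ 0 := by
  intro h0
  have e1 := rep_fst x y
  have e2 := rep_snd x y
  rw [h0, zero_mul] at e1 e2
  exact h (e1.symm.trans e2)

/-- the possible factors `u` if `x`, `y` have period `N` -/
def UU (K : Type) [Field K] [NumberField K] (S : Set (HeightOneSpectrum (𝓞 K))) (d : ℕ)
    [NeZero d] (N : ℕ) : Set K :=
  ⋃ μ ∈ VV K S d N, {u : K | u ^ (d ^ N - 1) = μ⁻¹}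

lemma UU_finite [NeZero d] (hS : S.Finite) (hd : 5 ≤ d) {N : ℕ} (hN : 0 < N) :
    (UU K S d N).Finite := by
  refine (VV_finite hS hd N).biUnion fun μ _ => pow_eq_finite ?_ _
  have := Nat.one_lt_pow hN.ne' (show 1 < d by omega)
  omega

lemma fac_mem [NeZero d] (hd : 5 ≤ d) {c : ℕ → K}
    (hloc : ∀ v ∉ S, In (v.valuation K) (uni d c) ∨ Dm (v.valuation K) (d - 1) (uni d c))
    {x y : ℕ → K} (ox : Orb (uni d c) x) (oy : Orb (uni d c) y)
    {N : ℕ} (hN : 0 < N) (cx : ∀ j, x (j + N) = x j) (cy : ∀ j, y (j + N) = y j)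
    (hne : x 0 ≠ y 0) (j : ℕ) : fac (x j) (y j) ∈ UU K S d N := by
  obtain ⟨μ, hμ, h1⟩ := fac_many hd hloc ox ⟨N, hN, cx⟩ oy ⟨N, hN, cy⟩ hne j N
  rw [cx, cy] at h1
  have h2 := fac_ne _ _ (ox.ne oy ⟨N, hN, cx⟩ ⟨N, hN, cy⟩ hne j)
  simp only [UU, Set.mem_iUnion]
  refine ⟨μ, hμ, ?_⟩
  rw [Set.mem_ofPred_eq]
  have hdN : 0 < d ^ N := Nat.pow_pos (by omega)
  obtain ⟨q, hq⟩ : ∃ q, d ^ N = q + 1 := ⟨d ^ N - 1, by omega⟩
  rw [hq, pow_succ, ← mul_assoc] at h1
  have h3 : μ * fac (x j) (y j) ^ q = 1 := by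
    apply mul_right_cancel₀ h2
    rw [one_mul]; exact h1.symm
  rw [hq, Nat.add_sub_cancel]
  exact eq_inv_of_mul_eq_one_right h3

/-- the possible points -/
def XX (K : Type) [Field K] [NumberField K] (S : Set (HeightOneSpectrum (𝓞 K))) (d : ℕ)
    [NeZero d] (N : ℕ) : Set K :=
  (fun p : K × (K × K) => p.1 * p.2.1) '' (UU K S d N ×ˢ RR K S d)

/-- the possible parameters -/
def CC (K : Type) [Field K] [NumberField K] (S : Set (HeightOneSpectrum (𝓞 K))) (d : ℕ)
    [NeZero d] (N : ℕ) : Set K :=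
  (fun p : K × K => p.1 - p.2 ^ d) '' (XX K S d N ×ˢ XX K S d N)

lemma CC_finite [NeZero d] (hS : S.Finite) (hd : 5 ≤ d) {N : ℕ} (hN : 0 < N) :
    (CC K S d N).Finite := by
  have h1 : (XX K S d N).Finite := ((UU_finite hS hd hN).prod (RR_finite hS hd)).image _
  exact (h1.prod h1).image _

lemma c_mem [NeZero d] (hd : 5 ≤ d) {c : ℕ → K}
    (hloc : ∀ v ∉ S, In (v.valuation K) (uni d c) ∨ Dm (v.valuation K) (d - 1) (uni d c))
    {x y : ℕ → K} (ox : Orb (uni d c) x) (oy : Orb (uni d c) y)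
    {N : ℕ} (hN : 0 < N) (cx : ∀ j, x (j + N) = x j) (cy : ∀ j, y (j + N) = y j)
    (hne : x 0 ≠ y 0) (j : ℕ) : c j ∈ CC K S d N := by
  have h1 : ∀ j, x j ∈ XX K S d N := fun j =>
    ⟨(fac (x j) (y j), rep (x j) (y j)), ⟨fac_mem hd hloc ox oy hN cx cy hne j,
      mem_RR hd hloc ox ⟨N, hN, cx⟩ oy ⟨N, hN, cy⟩ hne j⟩, rep_fst _ _⟩
  refine ⟨(x (j + 1), x j), ⟨h1 _, h1 _⟩, ?_⟩
  simp only
  rw [ox j]
  simp [uni]

/-- **finitely many exceptional parameters** -/
theorem uni_finite (K : Type) [Field K] [NumberField K] {S : Set (HeightOneSpectrum (𝓞 K))}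
    (hS : S.Finite) {d n : ℕ} (hd : 5 ≤ d) (hn : 0 < n) :
    {c : ℕ → K | (∀ i, c (i + n) = c i) ∧
      (∀ v ∉ S, In (v.valuation K) (uni d c) ∨ Dm (v.valuation K) (d - 1) (uni d c)) ∧
      ∃ a b, a ≠ b ∧ Per (fun z => (cmp (uni d c) n).eval z) a ∧
        Per (fun z => (cmp (uni d c) n).eval z) b}.Finite := by
  classical
  have : NeZero d := ⟨by omega⟩
  obtain ⟨B, hB⟩ := seq_bound K hS (M := d - 1) (e := d) (by omega) (by omega)
  set N := n * B.factorial with hN
  have hN0 : 0 < N := Nat.mul_pos hn (Nat.factorial_pos _)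
  have hfin : (Set.univ.pi (fun _ : Fin n => CC K S d N)).Finite :=
    Set.Finite.pi fun _ => CC_finite hS hd hN0
  have key : ∀ {c : ℕ → K}, (∀ i, c (i + n) = c i) →
      (∀ v ∉ S, In (v.valuation K) (uni d c) ∨ Dm (v.valuation K) (d - 1) (uni d c)) →
      ∀ a, Per (fun z => (cmp (uni d c) n).eval z) a →
        (fun z => (cmp (uni d c) n).eval z)^[B.factorial] a = a := by
    intro c hc hloc a ha
    set F := fun z => (cmp (uni d c) n).eval z with hF
    have hper : ∀ i, uni d c (i + n) = uni d c i := fun i => by simp only [uni, hc]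
    have hmp : 0 < Function.minimalPeriod F a := by
      obtain ⟨m, hm, he⟩ := ha
      exact Function.IsPeriodicPt.minimalPeriod_pos hm he
    have h1 := hB (uni d c) (fun i => by rw [uni_deg (by omega)]; omega)
      (fun i => by rw [uni_deg (by omega)]) (fun i => uni_comp c i) hloc
      ((Finset.range (Function.minimalPeriod F a)).image (fun k => F^[k] a)) (by
        intro b hb
        obtain ⟨k, -, rfl⟩ := Finset.mem_image.mp hb
        exact cy_of_per hn hper (ha.iter k))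
    rw [Finset.card_image_of_injOn, Finset.card_range] at h1
    · rw [iter_eq_self_iff]
      exact Nat.dvd_factorial hmp h1
    · intro i hi j hj hij
      rw [Finset.coe_range, Set.mem_Iio] at hi hj
      exact Function.iterate_injOn_Iio_minimalPeriod hi hj hij
  refine Set.Finite.of_finite_image (f := fun (c : ℕ → K) (i : Fin n) => c i) (hfin.subset ?_) ?_
  · rintro _ ⟨c, ⟨hc, hloc, a, b, hab, pa, pb⟩, rfl⟩
    intro i _
    have hper : ∀ i, uni d c (i + n) = uni d c i := fun i => by simp only [uni, hc]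
    have ea := key hc hloc a pa
    have eb := key hc hloc b pb
    refine c_mem hd hloc (x := fun j => (cmp (uni d c) j).eval a)
      (y := fun j => (cmp (uni d c) j).eval b) (cmp_orb _ _) (cmp_orb _ _) hN0 ?_ ?_ ?_ i
    · intro j
      rw [hN, cmp_iter _ hper, ea]
    · intro j
      rw [hN, cmp_iter _ hper, eb]
    · simpa [cmp] using hab
  · rintro c ⟨hc, -⟩ c' ⟨hc', -⟩ h
    funext i
    have h1 : ∀ (c : ℕ → K), (∀ i, c (i + n) = c i) → c i = c (i % n) := by
      intro c hc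
      conv_lhs => rw [← Nat.mod_add_div i n]
      exact Cy.mul hc _ _
    rw [h1 c hc, h1 c' hc']
    exact congrFun h ⟨i % n, Nat.mod_lt _ hn⟩

end unicritical

section perm

variable {K : Type*} [Field K]

/-- the map `x ↦ (f i (x (σ i)))` on `K ^ I` -/
def pmap {I : Type*} (σ : Equiv.Perm I) (f : I → K[X]) (x : I → K) : I → K :=
  fun i => (f i).eval (x (σ i))

/-- the coordinates of periodic points are cyclic orbits -/
lemma pmap_cy {I : Type*} [Finite I] (σ : Equiv.Perm I) (f : I → K[X]) {x : I → K}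
    (h : Per (pmap σ f) x) (i : I) :
    ∃ s : ℕ → K, s 0 = x i ∧ Orb (fun k => f ((σ⁻¹ ^ (k + 1)) i)) s ∧ Cy s := by
  obtain ⟨m, hm, he⟩ := h
  refine ⟨fun k => (pmap σ f)^[k] x ((σ⁻¹ ^ k) i), by simp, ?_, m * orderOf σ,
    Nat.mul_pos hm (isOfFinOrder_of_finite σ).orderOf_pos, fun j => ?_⟩
  · intro j
    simp only
    rw [Function.iterate_succ_apply', pmap, pow_succ' σ⁻¹ j, Equiv.Perm.mul_apply,
      show σ (σ⁻¹ ((σ⁻¹ ^ j) i)) = (σ⁻¹ ^ j) i from σ.apply_symm_apply _]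
  · simp only
    have h1 : (σ⁻¹) ^ (m * orderOf σ) = 1 := by
      rw [pow_mul', inv_pow, pow_orderOf_eq_one, inv_one, one_pow]
    rw [Function.iterate_add_apply, iter_mul he, pow_add, h1, mul_one]

end perm

/-- **permuted maps** -/
theorem pmap_bound (K : Type) [Field K] [NumberField K] {S : Set (HeightOneSpectrum (𝓞 K))}
    (hS : S.Finite) {M e : ℕ} (hM : 4 ≤ M) (he : 3 ≤ e) :
    ∃ B : ℕ, ∀ (N : ℕ) (σ : Equiv.Perm (Fin N)) (f : Fin N → K[X]),
      (∀ i, 2 ≤ (f i).natDegree) → (∀ i, M ∣ (f i).natDegree - 1) →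
      (∀ i, ∃ g : K[X], f i = g.comp (X ^ e)) →
      (∀ v ∉ S, ∀ i, In (v.valuation K) (fun k => f ((σ⁻¹ ^ (k + 1)) i)) ∨
        Dm (v.valuation K) M (fun k => f ((σ⁻¹ ^ (k + 1)) i))) →
      ∀ T : Finset (Fin N → K), (∀ x ∈ T, Per (pmap σ f) x) → T.card ≤ B ^ N := by
  classical
  obtain ⟨B, hB⟩ := seq_bound K hS hM he
  refine ⟨B, fun N σ f hD hM' hf hloc T hT => ?_⟩
  have h1 : T ⊆ Fintype.piFinset (fun i => T.image (fun x => x i)) := by
    intro x hx
    rw [Fintype.mem_piFinset]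
    intro i
    exact Finset.mem_image_of_mem _ hx
  refine (Finset.card_le_card h1).trans ?_
  rw [Fintype.card_piFinset]
  calc ∏ i, (T.image (fun x => x i)).card ≤ ∏ _i : Fin N, B := by
        refine Finset.prod_le_prod' fun i _ => ?_
        refine hB (fun k => f ((σ⁻¹ ^ (k + 1)) i)) (fun _ => hD _) (fun _ => hM' _)
          (fun _ => hf _) (fun v hv => hloc v hv i) _ ?_
        intro a ha
        obtain ⟨x, hx, rfl⟩ := Finset.mem_image.mp ha
        exact pmap_cy σ f (hT x hx) i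
    _ = B ^ N := by simp

end Pool.Agent.H422.CO
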